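import Pool.Agent.N436.DF.Stm

/-! DF/17 (helper547 for helper436): two colourings of `X` at once. -/

set_option autoImplicit false

open Finset Pool.Agent.N436.DF

namespace Pool.Agent.N547.DF.P3

variable {V : Type} [DecidableEq V]

omit [DecidableEq V] in
lemma r_nn {P : Par} {H : Hub V} (hok : Ok P H) (a b : V) : 0 ≤ H.r a b := by
  rcases hok.r01 a b with h | h <;> rw [h]
  norm_num

/-- the number of real edges drops strictly when `S` is replaced by `S \ X` -/
lemma eE_lt {P : Par} {H : Hub V} (hok : Ok P H) {S X : Finset V} {u w : V} (huX : u ∈ X)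
    (huS : u ∈ S) (hwS : w ∈ S) (huw : H.r u w = 1) : eE H (S \ X) < eE H S := by
  unfold eE
  have h1 : ∑ a ∈ S \ X, ∑ v ∈ S \ X, H.r a v ≤ ∑ a ∈ S \ X, ∑ v ∈ S, H.r a v :=
    sum_le_sum fun a _ => sum_le_sum_of_subset_of_nonneg sdiff_subset fun v _ _ => r_nn hok _ _
  have h2 : ∑ a ∈ S \ X, ∑ v ∈ S, H.r a v < ∑ a ∈ S, ∑ v ∈ S, H.r a v := by
    refine sum_lt_sum_of_subset sdiff_subset huS (fun h => (mem_sdiff.1 h).2 huX) ?_
      (fun a _ _ => sum_nonneg fun v _ => r_nn hok _ _)
    refine lt_of_lt_of_le (by rw [huw]; norm_num : (0 : ℤ) < H.r u w) ?_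
    exact single_le_sum (f := fun v => H.r u v) (fun v _ => r_nn hok _ _) hwS
  linarith

/-- the units of `v` reserved for colour `i` -/
def res (H : Hub V) (X : Finset V) (f1 f2 : V → Bool) (i : Bool) (v : V) : ℤ :=
  ∑ x ∈ X with f1 x ≠ i ∨ f2 x ≠ i, H.m x v

/-- the system on `S \ X` in which every vertex pays for both colourings -/
def two (H : Hub V) (X : Finset V) (f1 f2 : V → Bool) : Hub V where
  c i v := max (-1) (H.c i v - res H X f1 f2 i v)
  r := H.r
  m := H.m

lemma res_nn {P : Par} {H : Hub V} (hok : Ok P H) (X : Finset V) (f1 f2 : V → Bool) (i : Bool)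
    (v : V) : 0 ≤ res H X f1 f2 i v := sum_nonneg fun x _ => hok.m_nn x v

lemma two_ok {P : Par} {H : Hub V} (hok : Ok P H) (X : Finset V) (f1 f2 : V → Bool) :
    Ok P (two H X f1 f2) where
  c_ge i v := le_max_left _ _
  c1_le v := by
    have h1 := hok.c1_le v
    have h2 := res_nn hok X f1 f2 true v
    have h3 := P.hj
    exact max_le (by linarith) (by linarith)
  c2_le v := by
    have h1 := hok.c2_le v
    have h2 := res_nn hok X f1 f2 false v
    have h3 := P.hj
    have h4 := P.hjk
    exact max_le (by linarith) (by linarith)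
  r01 := hok.r01
  rsymm := hok.rsymm
  r0 := hok.r0
  m_nn := hok.m_nn
  msymm := hok.msymm
  m0 := hok.m0

/-- potential of a union -/
lemma rho_union {P : Par} {H : Hub V} (hok : Ok P H) {X Y : Finset V} (hd : Disjoint Y X) :
    rho P H (Y ∪ X) = rho P H Y + rho P H X - 2 * ∑ v ∈ Y, ∑ x ∈ X, ew P H x v := by
  unfold rho
  rw [sum_union hd]
  have h1 : ∑ u ∈ Y ∪ X, ∑ v ∈ Y ∪ X, ew P H u v =
      ∑ u ∈ Y, ∑ v ∈ Y, ew P H u v + ∑ u ∈ X, ∑ v ∈ X, ew P H u v +
        2 * ∑ v ∈ Y, ∑ x ∈ X, ew P H x v := by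
    rw [sum_union hd]
    have h2 : ∀ u, ∑ v ∈ Y ∪ X, ew P H u v = ∑ v ∈ Y, ew P H u v + ∑ v ∈ X, ew P H u v :=
      fun u => sum_union hd
    simp only [h2, sum_add_distrib]
    have h3 : ∑ u ∈ X, ∑ v ∈ Y, ew P H u v = ∑ v ∈ Y, ∑ x ∈ X, ew P H x v := sum_comm
    have h4 : ∑ u ∈ Y, ∑ v ∈ X, ew P H u v = ∑ v ∈ Y, ∑ x ∈ X, ew P H x v := by
      refine sum_congr rfl fun u _ => sum_congr rfl fun v _ => ?_
      unfold ew
      rw [hok.rsymm, hok.msymm]
    rw [h3, h4]
    ring
  rw [h1]
  ring

/-- gluing -/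
lemma glue {P : Par} {H : Hub V} (hok : Ok P H) {S X : Finset V} {u w : V} {f1 f2 : V → Bool}
    {f : V → Bool} {p : V → V → ℤ} (hX : X ⊆ S)
    (huniq : ∀ x ∈ X, ∀ v ∈ S \ X, H.r x v = 1 → x = u ∧ v = w)
    (hc : ColBy H X f p) {f3 : V → Bool} {p3 : V → V → ℤ}
    (hc3 : ColBy (two H X f1 f2) (S \ X) f3 p3) (hne : f u ≠ f3 w)
    (hf : ∀ x i, f x ≠ i → f1 x ≠ i ∨ f2 x ≠ i) : Col H S := by
  have hSX : S = (S \ X) ∪ X := (sdiff_union_of_subset hX).symm
  have hr0 : ∀ x ∈ X, ∀ v ∈ S \ X, f x = f3 v → H.r x v = 0 := by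
    intro x hx v hv he
    by_contra hne0
    obtain ⟨rfl, rfl⟩ := huniq x hx v hv ((hok.r01 x v).resolve_left hne0)
    exact hne he
  refine ⟨fun x => if x ∈ X then f x else f3 x,
    fun y z => if y ∈ X then (if z ∈ X then p y z else 0) else
      (if z ∈ X then H.m y z else p3 y z), ?_, ?_, ?_⟩
  · intro y z
    split_ifs
    · exact hc.nn _ _
    · exact le_rfl
    · exact hok.m_nn _ _
    · exact hc3.nn _ _
  · intro y hy z hz hyz
    by_cases hyX : y ∈ X <;> by_cases hzX : z ∈ X
    · simp only [hyX, hzX, if_true] at hyz ⊢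
      exact hc.pay y hyX z hzX hyz
    · simp only [hyX, hzX, if_true, if_false]
      rw [hok.msymm, zero_add]
    · simp only [hyX, hzX, if_true, if_false]
      rw [add_zero]
    · simp only [hyX, hzX, if_false] at hyz ⊢
      exact hc3.pay y (mem_sdiff.2 ⟨hy, hyX⟩) z (mem_sdiff.2 ⟨hz, hzX⟩) hyz
  · intro y hy
    unfold load
    dsimp only
    have hsplit : ∀ g : V → ℤ, ∑ v ∈ S, g v = ∑ v ∈ S \ X, g v + ∑ v ∈ X, g v := fun g =>
      (sum_sdiff hX).symm
    rw [hsplit]
    by_cases hyX : y ∈ X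
    · simp only [hyX, if_true]
      have e1 : ∑ v ∈ S \ X, (if f y = (if v ∈ X then f v else f3 v) then H.r y v else
          (if v ∈ X then p y v else 0)) = 0 := by
        refine sum_eq_zero fun v hv => ?_
        have hvX := (mem_sdiff.1 hv).2
        simp only [hvX, if_false]
        split_ifs with he
        · exact hr0 y hyX v hv he
        · rfl
      have e2 : ∑ v ∈ X, (if f y = (if v ∈ X then f v else f3 v) then H.r y v else
          (if v ∈ X then p y v else 0)) = load H X f p y := by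
        unfold load
        refine sum_congr rfl fun v hv => ?_
        simp only [hv, if_true]
      rw [e1, e2, zero_add]
      exact hc.cap y hyX
    · simp only [hyX, if_false]
      have hyS : y ∈ S \ X := mem_sdiff.2 ⟨hy, hyX⟩
      have e1 : ∑ v ∈ S \ X, (if f3 y = (if v ∈ X then f v else f3 v) then H.r y v else
          (if v ∈ X then H.m y v else p3 y v)) = load (two H X f1 f2) (S \ X) f3 p3 y := by
        unfold load
        refine sum_congr rfl fun v hv => ?_
        have hvX := (mem_sdiff.1 hv).2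
        simp only [hvX, if_false]
        rfl
      have e2 : ∑ v ∈ X, (if f3 y = (if v ∈ X then f v else f3 v) then H.r y v else
          (if v ∈ X then H.m y v else p3 y v)) ≤ res H X f1 f2 (f3 y) y := by
        unfold res
        rw [sum_filter]
        refine sum_le_sum fun v hv => ?_
        simp only [hv, if_true]
        by_cases he : f3 y = f v
        · rw [if_pos he, hok.rsymm, hr0 v hv y hyS he.symm]
          split_ifs
          · exact hok.m_nn _ _
          · exact le_rfl
        · rw [if_neg he, if_pos (hf v (f3 y) (fun h => he h.symm)), hok.msymm]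
      rw [e1]
      have e3 := hc3.cap y hyS
      have e4 : 0 ≤ load (two H X f1 f2) (S \ X) f3 p3 y := by
        unfold load
        refine sum_nonneg fun z _ => ?_
        split_ifs
        · exact r_nn hok _ _
        · exact hc3.nn _ _
      have e5 : (two H X f1 f2).c (f3 y) y = max (-1) (H.c (f3 y) y - res H X f1 f2 (f3 y) y) := rfl
      rw [e5] at e3
      rcases le_max_iff.1 e3 with e6 | e6
      · linarith
      · linarith

theorem p3 (ha0 : S_A0) : S_P3 := by
  intro V _ P H S X u w f1 f2 p1 p2 h hrng hc1 hc2 hf1 hf2 hdf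
  have hw := mem_sdiff.1 h.hw
  have huS : u ∈ S := h.sub h.hu
  have hok := h.mc.ok
  have hp1 := P.hab
  have hp2 := P.hb
  have hp3 := P.hd
  have hp4 := P.hDa
  have hle := h.le_a
  have hsoft := h.rng.hsoft
  have hg2 : 0 < rho P H S + 2 * P.b := by
    have := h.mc.hyp S (Subset.refl _) ⟨w, hw.1⟩
    linarith
  have ok2 := two_ok hok X f1 f2
  -- the units between `v` and the vertices of `X` where the colourings differ
  set Df : V → ℤ := fun v => ∑ x ∈ X with f1 x ≠ f2 x, H.m x v with hDf
  have hDfnn : ∀ v, 0 ≤ Df v := fun v => sum_nonneg fun x _ => hok.m_nn x v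
  have hDfsum : ∀ Y, Y ⊆ S \ X → ∑ v ∈ Y, Df v ≤ 1 := by
    intro Y hY
    calc ∑ v ∈ Y, Df v ≤ ∑ v ∈ S \ X, Df v :=
          sum_le_sum_of_subset_of_nonneg hY fun v _ _ => hDfnn v
      _ = ∑ x ∈ X with f1 x ≠ f2 x, ∑ v ∈ S \ X, H.m x v := sum_comm
      _ ≤ 1 := hdf
  -- the local inequality
  have hloc : ∀ v ∈ S \ X, (if v = w then P.D else 0) - P.b * Df v ≤
      ∑ x ∈ X, ew P H x v - (wt P H v - wt P (two H X f1 f2) v) := by
    intro v hv
    have e1 : H.c true v - (two H X f1 f2).c true v ≤ res H X f1 f2 true v := by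
      have : (two H X f1 f2).c true v = max (-1) (H.c true v - res H X f1 f2 true v) := rfl
      rw [this]
      have := le_max_right (-1) (H.c true v - res H X f1 f2 true v)
      linarith
    have e2 : H.c false v - (two H X f1 f2).c false v ≤ res H X f1 f2 false v := by
      have : (two H X f1 f2).c false v = max (-1) (H.c false v - res H X f1 f2 false v) := rfl
      rw [this]
      have := le_max_right (-1) (H.c false v - res H X f1 f2 false v)
      linarith
    -- the sum of the units
    have e3 : P.a * res H X f1 f2 true v + P.b * res H X f1 f2 false v ≤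
        P.a * ∑ x ∈ X, H.m x v + P.b * Df v := by
      unfold res
      rw [hDf]
      simp only [sum_filter, mul_sum]
      rw [← sum_add_distrib, ← sum_add_distrib]
      refine sum_le_sum fun x _ => ?_
      have hm := hok.m_nn x v
      have hm1 : P.b * H.m x v ≤ P.a * H.m x v := mul_le_mul_of_nonneg_right (by linarith) hm
      have hm2 : 0 ≤ P.b * H.m x v := mul_nonneg (by linarith) hm
      cases f1 x <;> cases f2 x <;> simp <;> linarith
    have e4 : (if v = w then P.D else 0) ≤ P.D * ∑ x ∈ X, H.r x v := by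
      split_ifs with hvw
      · subst hvw
        have : (1 : ℤ) ≤ ∑ x ∈ X, H.r x v := by
          rw [← h.huw]
          exact single_le_sum (f := fun x => H.r x v) (fun x _ => r_nn hok _ _) h.hu
        nlinarith
      · exact mul_nonneg (by linarith) (sum_nonneg fun x _ => r_nn hok _ _)
    have e5 : ∑ x ∈ X, ew P H x v = P.D * ∑ x ∈ X, H.r x v + P.a * ∑ x ∈ X, H.m x v := by
      unfold ew
      rw [sum_add_distrib, mul_sum, mul_sum]
    rw [e5]
    unfold wt
    have e6 : P.a * (H.c true v - (two H X f1 f2).c true v) ≤ P.a * res H X f1 f2 true v :=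
      mul_le_mul_of_nonneg_left e1 (by linarith)
    have e7 : P.b * (H.c false v - (two H X f1 f2).c false v) ≤ P.b * res H X f1 f2 false v :=
      mul_le_mul_of_nonneg_left e2 (by linarith)
    linarith
  -- the potential
  have hrho : ∀ Y, Y ⊆ S \ X → rho P H (Y ∪ X) - rho P H X + (if w ∈ Y then 2 * P.D else 0) -
      2 * P.b ≤ rho P (two H X f1 f2) Y := by
    intro Y hY
    have hd : Disjoint Y X := sdiff_disjoint.mono_left hY
    rw [rho_union hok hd]
    have e1 : rho P (two H X f1 f2) Y = rho P H Y - 2 * ∑ v ∈ Y, wt P H v +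
        2 * ∑ v ∈ Y, wt P (two H X f1 f2) v := by
      unfold rho
      have : ∑ u ∈ Y, ∑ v ∈ Y, ew P (two H X f1 f2) u v = ∑ u ∈ Y, ∑ v ∈ Y, ew P H u v := rfl
      rw [this]
      ring
    rw [e1]
    have e2 : ∑ v ∈ Y, ((if v = w then P.D else 0) - P.b * Df v) ≤
        ∑ v ∈ Y, (∑ x ∈ X, ew P H x v - (wt P H v - wt P (two H X f1 f2) v)) :=
      sum_le_sum fun v hv => hloc v (hY hv)
    rw [sum_sub_distrib, sum_sub_distrib, sum_sub_distrib, ← mul_sum, sum_ite_eq'] at e2
    have e3 := hDfsum Y hY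
    have e4 : P.b * ∑ v ∈ Y, Df v ≤ P.b * 1 := mul_le_mul_of_nonneg_left e3 (by linarith)
    split_ifs at e2 ⊢ <;> linarith
  -- the hypothesis
  have hyp2 : Hyp P (two H X f1 f2) (S \ X) := by
    intro Y hY hYn
    have e1 := hrho Y hY
    by_cases hwY : w ∈ Y
    · rw [if_pos hwY] at e1
      have e2 : rho P H S ≤ rho P H (Y ∪ X) := by
        by_cases hS : Y ∪ X = S
        · rw [hS]
        · have := ha0 V P H S (Y ∪ X) h.mc (union_subset (hY.trans sdiff_subset) h.sub)
            ⟨u, mem_union_right _ h.hu⟩ hS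
          linarith
      linarith
    · rw [if_neg hwY] at e1
      have e4 : rho P H X < rho P H (Y ∪ X) := by
        refine h.max (Y ∪ X) ?_ (union_subset (hY.trans sdiff_subset) h.sub) ?_
        · refine Finset.ssubset_iff_subset_ne.2 ⟨subset_union_right, ?_⟩
          intro he
          obtain ⟨y, hy⟩ := hYn
          have : y ∈ X := by
            rw [he]
            exact mem_union_left _ hy
          exact (mem_sdiff.1 (hY hy)).2 this
        · refine ⟨u, mem_union_right _ h.hu, w, mem_sdiff.2 ⟨hw.1, ?_⟩, h.huw⟩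
          rw [mem_union]
          rintro (hh | hh)
          · exact hwY hh
          · exact hw.2 hh
      linarith
  obtain ⟨f3, p3, hc3⟩ := h.mc.ih1 (two H X f1 f2) (S \ X) ok2 hyp2
    (eE_lt hok h.hu huS hw.1 h.huw)
  apply h.mc.ncol
  cases hh : f3 w with
  | false =>
    exact glue hok h.sub hrng hc1 hc3 (by rw [hf1, hh]; simp) (fun x i hi => Or.inl hi)
  | true =>
    exact glue hok h.sub hrng hc2 hc3 (by rw [hf2, hh]; simp) (fun x i hi => Or.inr hi)

end Pool.Agent.N547.DF.P3
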