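import Pool.Agent.N436.DF.Stm

/-! DF/15 (helper547 for helper436): the prepayment lemma. -/

set_option autoImplicit false

open Finset Pool.Agent.N436.DF

namespace Pool.Agent.N547.DF.Prepay

variable {V : Type} [DecidableEq V]

lemma r_nn {P : Par} {H : Hub V} (hok : Ok P H) (a b : V) : 0 ≤ H.r a b := by
  rcases hok.r01 a b with h | h <;> rw [h]
  norm_num

lemma load_nn {P : Par} {H : Hub V} (hok : Ok P H) {S : Finset V} {f : V → Bool} {p : V → V → ℤ}
    (hc : ColBy H S f p) (v : V) : 0 ≤ load H S f p v := by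
  unfold load
  refine sum_nonneg fun z _ => ?_
  split_ifs
  · exact r_nn hok _ _
  · exact hc.nn _ _

/-- the number of real edges drops strictly when `S` is replaced by `S \ X` -/
lemma eE_lt {P : Par} {H : Hub V} (hok : Ok P H) {S X : Finset V} {u w : V} (huX : u ∈ X)
    (huS : u ∈ S) (hwS : w ∈ S) (huw : H.r u w = 1) : eE H (S \ X) < eE H S := by
  unfold eE
  have h1 : ∑ a ∈ S \ X, ∑ v ∈ S \ X, H.r a v ≤ ∑ a ∈ S \ X, ∑ v ∈ S, H.r a v :=
    sum_le_sum fun a _ => sum_le_sum_of_subset_of_nonneg sdiff_subset fun v _ _ => r_nn hok _ _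
  have h2 : ∑ a ∈ S \ X, ∑ v ∈ S, H.r a v < ∑ a ∈ S, ∑ v ∈ S, H.r a v := by
    refine sum_lt_sum_of_subset sdiff_subset huS (fun h => (mem_sdiff.1 h).2 huX) ?_
      (fun a _ _ => sum_nonneg fun v _ => r_nn hok _ _)
    refine lt_of_lt_of_le (by rw [huw]; norm_num : (0 : ℤ) < H.r u w) ?_
    exact single_le_sum (f := fun v => H.r u v) (fun v _ => r_nn hok _ _) hwS
  linarith

theorem prepay (hlow : S_low) (hdelr : S_delr) (haddm : S_addm) (hp : S_trPair) (hr : S_trReal)
    (hkc : S_killCol) (hkr : S_killRho) (hpend : S_pend) (hprop : S_prop) (hT : S_T) :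
    S_prepay := by
  intro V _ P H S X u w f p h hcol hfu ht1 hSX hA hB
  have hwSX := h.hw
  have hw := mem_sdiff.1 h.hw
  have huS : u ∈ S := h.sub h.hu
  have hok := h.mc.ok
  have hp1 := P.hab
  have hp2 := P.hb
  have hp3 := P.hd
  have hp4 := P.hDa
  have hle := h.le_a
  have hg2 : 0 < rho P H S + 2 * P.b := by
    have := h.mc.hyp S (Subset.refl _) ⟨w, hw.1⟩
    linarith
  obtain ⟨k1, k2, k3, k4, k5, k6, k7⟩ := hkr V P H X f hok
  set K := kill H X f with hK
  -- the kill system on the rest is not colourable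
  have hnK : ¬ Col K (S \ X) := by
    intro hc
    obtain ⟨f', p', hc', -⟩ := hkc V P H S X f p hok h.sub hcol hc
    exact h.mc.ncol ⟨f', p', hc'⟩
  have hsavT := hT V P H S X u w f p h hcol
  have hsavw : sav P H X f w ≤ ∑ v ∈ S \ X, sav P H X f v :=
    single_le_sum (f := fun v => sav P H X f v) (fun v _ => (k3 v).2.2.2.2.2) hwSX
  have hsw : sav P H X f w < P.a := by linarith
  -- (1)
  have hnr1 : 1 ≤ nr H X f true w := by
    unfold nr
    calc (1 : ℤ) = H.r u w := h.huw.symm
      _ ≤ _ := single_le_sum (f := fun x => H.r x w) (fun v _ => r_nn hok _ _)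
          (mem_filter.2 ⟨h.hu, hfu⟩)
  have ht1' : nr H X f true w + pr H X f true w = 1 := ht1
  obtain ⟨n1, n2, n3, n4, n5, n6⟩ := k3 w
  have hnr1' : nr H X f true w = 1 := by linarith
  have hpr1 : pr H X f true w = 0 := by linarith
  have hpr2 : pr H X f false w = 0 := by
    have e1 := k5 w hnr1
    rw [ht1, mul_one] at e1
    by_contra hne
    have : 1 ≤ pr H X f false w := by omega
    nlinarith
  have hwne : ({w} : Finset V) ≠ S \ X := fun he => hSX he.symm
  -- (2)
  have hcw1 : K.c true w = -1 := by
    rw [hK]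
    unfold kill
    simp only
    rw [if_pos (by linarith)]
  have hrww : H.r w w = 0 := hok.r0 w
  have hmww : H.m w w = 0 := hok.m0 w
  have hnr2 : nr H X f false w = 0 := by
    by_contra hne
    have h0 : 0 < nr H X f false w := by omega
    have hcw2 : K.c false w = -1 := by
      rw [hK]
      unfold kill
      simp only
      rw [if_pos h0]
    have e1 := hprop V P H S X {w} u w f h (singleton_subset_iff.2 hwSX) (singleton_nonempty w) hwne
    have e2 : rho P K {w} = -(2 * P.b) := by
      unfold rho wt ew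
      rw [sum_singleton, sum_singleton, sum_singleton, hcw1, hcw2]
      have a1 : K.r w w = 0 := hrww
      have a2 : K.m w w = 0 := hmww
      rw [a1, a2]
      ring
    rw [← hK, e2] at e1
    exact lt_irrefl _ e1
  -- edges of `w` to `X`
  have hrX : ∀ x ∈ X, x ≠ u → H.r w x = 0 := by
    intro x hx hxu
    rw [hok.rsymm]
    by_contra hne
    have hx1 : H.r x w = 1 := (hok.r01 x w).resolve_left hne
    cases hfx : f x with
    | true =>
      have : H.r x w + H.r u w ≤ nr H X f true w := by
        unfold nr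
        have hsub : ({x, u} : Finset V) ⊆ X.filter (fun x => f x = true) := by
          intro z hz
          rcases mem_insert.1 hz with rfl | hz
          · exact mem_filter.2 ⟨hx, hfx⟩
          · rw [mem_singleton.1 hz]
            exact mem_filter.2 ⟨h.hu, hfu⟩
        calc H.r x w + H.r u w = ∑ z ∈ ({x, u} : Finset V), H.r z w :=
              (sum_pair (f := fun z => H.r z w) hxu).symm
          _ ≤ _ := sum_le_sum_of_subset_of_nonneg hsub fun _ _ _ => r_nn hok _ _
      rw [hx1, h.huw, hnr1'] at this
      norm_num at this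
    | false =>
      have : H.r x w ≤ nr H X f false w := by
        unfold nr
        exact single_le_sum (f := fun z => H.r z w) (fun v _ => r_nn hok _ _)
          (mem_filter.2 ⟨hx, hfx⟩)
      rw [hx1, hnr2] at this
      norm_num at this
  have hmX : ∀ x ∈ X, H.m w x = 0 := by
    intro x hx
    rw [hok.msymm]
    have hx0 := hok.m_nn x w
    cases hfx : f x with
    | true =>
      have : H.m x w ≤ pr H X f true w := by
        unfold pr
        exact single_le_sum (f := fun z => H.m z w) (fun v _ => hok.m_nn _ _)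
          (mem_filter.2 ⟨hx, hfx⟩)
      linarith
    | false =>
      have : H.m x w ≤ pr H X f false w := by
        unfold pr
        exact single_le_sum (f := fun z => H.m z w) (fun v _ => hok.m_nn _ _)
          (mem_filter.2 ⟨hx, hfx⟩)
      linarith
  have hrwu : H.r w u = 1 := by rw [hok.rsymm]; exact h.huw
  -- (3)
  have hq : ∃ q ∈ S \ X, q ≠ w ∧ Adj H w q := by
    by_contra hno
    push Not at hno
    have hno' : ∀ q ∈ S \ X, H.r w q = 0 ∧ H.m w q = 0 := by
      intro q hq
      by_cases hqw : q = w
      · rw [hqw]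
        exact ⟨hrww, hmww⟩
      · have := hno q hq hqw
        unfold Adj at this
        push Not at this
        refine ⟨(hok.r01 w q).resolve_right this.1, ?_⟩
        have := hok.m_nn w q
        omega
    refine hpend V P H S w u h.mc hw.1 huS hrwu ?_ ?_
    · intro x hx hxu
      by_cases hxX : x ∈ X
      · exact hrX x hxX hxu
      · exact (hno' x (mem_sdiff.2 ⟨hx, hxX⟩)).1
    · intro x hx
      by_cases hxX : x ∈ X
      · exact hmX x hxX
      · exact (hno' x (mem_sdiff.2 ⟨hx, hxX⟩)).2
  obtain ⟨q, hqSX, hqw, hadj⟩ := hq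
  -- potentials of the kill system
  have hR : ∀ Y, Y ⊆ S \ X → rho P H (Y ∪ X) - rho P H X + 2 * (P.d * ∑ v ∈ Y, t1 H X f v) ≤
      rho P K Y := by
    intro Y hY
    rw [k2 Y (sdiff_disjoint.mono_left hY)]
    have : P.d * ∑ v ∈ Y, t1 H X f v ≤ ∑ v ∈ Y, sav P H X f v := by
      rw [mul_sum]
      exact sum_le_sum fun v _ => k4 v
    linarith
  have ht1nn : ∀ Y : Finset V, 0 ≤ P.d * ∑ v ∈ Y, t1 H X f v := by
    intro Y
    have : 0 ≤ ∑ v ∈ Y, t1 H X f v := sum_nonneg fun v _ => (k3 v).2.2.2.2.1
    exact mul_nonneg (by linarith) this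
  -- the general step
  have key : ∀ H2 : Hub V, Ok P H2 → eE H2 (S \ X) ≤ eE H (S \ X) →
      (Col H2 (S \ X) → Col K (S \ X)) →
      (∀ Y, Y ⊆ S \ X → rho P K Y + (if w ∈ Y ∧ q ∈ Y then 2 * P.d else -(2 * P.b)) ≤
        rho P H2 Y) → False := by
    intro H2 ok2 he hcc hrho
    have hc2 : ¬ Col H2 (S \ X) := fun hc => hnK (hcc hc)
    have hlt : eE H2 (S \ X) < eE H S := lt_of_le_of_lt he (eE_lt hok h.hu huS hw.1 h.huw)
    apply hc2
    refine h.mc.ih1 H2 (S \ X) ok2 ?_ hlt
    intro Y hY hYn
    have e1 := hrho Y hY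
    have e2 := hR Y hY
    have e3 := ht1nn Y
    by_cases hwY : w ∈ Y
    · by_cases hYU : Y = S \ X
      · subst hYU
        rw [if_pos ⟨hwY, hqSX⟩] at e1
        have : S \ X ∪ X = S := sdiff_union_of_subset h.sub
        rw [this] at e2
        linarith
      · by_cases hqY : q ∈ Y
        · rw [if_pos ⟨hwY, hqY⟩] at e1
          have e4 := hprop V P H S X Y u w f h hY hYn hYU
          rw [← hK] at e4
          linarith
        · rw [if_neg (fun hh => hqY hh.2)] at e1
          have e4 := hA Y hY hwY hYU
          linarith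
    · rw [if_neg (fun hh => hwY hh.1)] at e1
      have e4 : rho P H X < rho P H (Y ∪ X) := by
        refine h.max (Y ∪ X) ?_ (union_subset (hY.trans sdiff_subset) h.sub) ?_
        · refine Finset.ssubset_iff_subset_ne.2 ⟨subset_union_right, ?_⟩
          intro he
          obtain ⟨y, hy⟩ := hYn
          have : y ∈ X := by
            rw [he]
            exact mem_union_left _ hy
          exact (mem_sdiff.1 (hY hy)).2 this
        · refine ⟨u, mem_union_right _ h.hu, w, mem_sdiff.2 ⟨hw.1, ?_⟩, h.huw⟩
          rw [mem_union]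
          rintro (hh | hh)
          · exact hwY hh
          · exact hw.2 hh
      linarith
  have hkapf : kap P false = P.b := by
    unfold kap
    simp
  obtain ⟨l1, l2, l3, l4, l5⟩ := hlow V P K false w k1
  -- colour of `w` when colour 1 is forbidden
  have hcolw : ∀ (H2 : Hub V) (f2 : V → Bool) (p2 : V → V → ℤ), Ok P H2 → H2.c true w = -1 →
      ColBy H2 (S \ X) f2 p2 → f2 w = false := by
    intro H2 f2 p2 ok2 hc hcb
    by_contra hne
    have hne' : f2 w = true := by simpa using hne
    have e1 := hcb.cap w hwSX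
    have e2 := load_nn ok2 hcb w
    rw [hne', hc] at e1
    linarith
  rcases hadj with hreal | hpair
  · -- real edge
    obtain ⟨m1, m2, m3, m4, m5⟩ := hlow V P (low K false w) false q l1
    have hr1 : (low (low K false w) false q).r w q = 1 := hreal
    obtain ⟨d1, d2, d3, d4, d5⟩ := hdelr V P (low (low K false w) false q) w q m1 hr1
    refine key (delr (low (low K false w) false q) w q) d1 (d3 _) ?_ ?_
    · rintro ⟨f2, p2, hc2⟩
      have hw2 : f2 w = false := by
        refine hcolw _ f2 p2 d1 ?_ hc2
        have : (delr (low (low K false w) false q) w q).c true w = K.c true w := by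
          unfold delr low
          simp
        rw [this, hcw1]
      exact ⟨f2, p2, hr V P K (S \ X) false w q f2 p2 k1 hwSX hqSX hreal hw2 hc2⟩
    · intro Y hY
      rw [d2 Y]
      have e1 := l2 Y
      have e2 := m2 Y
      rw [hkapf] at e1 e2
      by_cases hwY : w ∈ Y <;> by_cases hqY : q ∈ Y <;>
        simp only [hwY, hqY, if_true, if_false, and_self, and_true, and_false] at e1 e2 ⊢ <;>
        linarith
  · -- pair edge
    have hm1 : 0 ≤ (low K false w).m w q + (-1) := by
      have : (low K false w).m w q = H.m w q := rfl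
      rw [this]
      linarith
    obtain ⟨d1, d2, d3, d4⟩ := haddm V P (low K false w) (-1) w q l1 (Ne.symm hqw) hm1
    refine key (addm (low K false w) (-1) w q) d1 le_rfl ?_ ?_
    · rintro ⟨f2, p2, hc2⟩
      have hw2 : f2 w = false := by
        refine hcolw _ f2 p2 d1 ?_ hc2
        have : (addm (low K false w) (-1) w q).c true w = K.c true w := by
          unfold addm low
          simp
        rw [this, hcw1]
      obtain ⟨p', hc'⟩ := hp V P K (S \ X) false w q f2 p2 k1 hwSX hqSX (Ne.symm hqw) hw2 hc2
      exact ⟨f2, p', hc'⟩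
    · intro Y hY
      rw [d2 Y]
      have e1 := l2 Y
      rw [hkapf] at e1
      by_cases hwY : w ∈ Y <;> by_cases hqY : q ∈ Y <;>
        simp only [hwY, hqY, if_true, if_false, and_self, and_true, and_false] at e1 ⊢ <;>
        linarith

end Pool.Agent.N547.DF.Prepay
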