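import Pool.Agent.N436.DF.Stm

/-! DF/14 (helper547 for helper436): the top set. -/

set_option autoImplicit false

open Finset Pool.Agent.N436.DF

namespace Pool.Agent.N547.DF.TopSet

variable {V : Type} [DecidableEq V]

/-- basic facts on the top set -/
lemma tf {P : Par} {H : Hub V} {S X : Finset V} {u w : V} (h : Top P H S X u w) :
    X.Nonempty ∧ X ≠ S ∧ u ∈ S ∧ w ∈ S ∧ w ∉ X ∧ 0 < rho P H S + 2 * P.b := by
  have hw := mem_sdiff.1 h.hw
  refine ⟨⟨u, h.hu⟩, ?_, h.sub h.hu, hw.1, hw.2, ?_⟩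
  · rintro rfl
    exact hw.2 hw.1
  · have := h.mc.hyp S (Subset.refl _) ⟨w, hw.1⟩
    linarith

/-- the union with a proper subset of the complement -/
lemma union_ge (ha1 : S_A1) {P : Par} {H : Hub V} {S X Y : Finset V} {u w : V}
    (h : Top P H S X u w) (hY : Y ⊆ S \ X) (hne : Y ≠ S \ X) :
    rho P H S + 2 * P.b + 2 * P.d ≤ rho P H (Y ∪ X) := by
  obtain ⟨h1, h2, h3, h4, h5, h6⟩ := tf h
  refine ha1 V P H S (Y ∪ X) h.mc ?_ ?_ ?_
  · exact union_subset (hY.trans sdiff_subset) h.sub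
  · exact h1.mono subset_union_right
  · intro h7
    apply hne
    apply Subset.antisymm hY
    intro z hz
    rw [mem_sdiff] at hz
    have : z ∈ Y ∪ X := by rw [h7]; exact hz.1
    rcases mem_union.1 this with h8 | h8
    · exact h8
    · exact absurd h8 hz.2

lemma eE_mono {P : Par} {H : Hub V} (hok : Ok P H) {X S : Finset V} (h : X ⊆ S) :
    eE H X ≤ eE H S := by
  unfold eE
  have hnn : ∀ a b, 0 ≤ H.r a b := fun a b => by
    rcases hok.r01 a b with h | h <;> rw [h]
    norm_num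
  calc ∑ u ∈ X, ∑ v ∈ X, H.r u v ≤ ∑ u ∈ X, ∑ v ∈ S, H.r u v :=
        sum_le_sum fun u _ => sum_le_sum_of_subset_of_nonneg h fun v _ _ => hnn u v
    _ ≤ ∑ u ∈ S, ∑ v ∈ S, H.r u v :=
        sum_le_sum_of_subset_of_nonneg h fun v _ _ => sum_nonneg fun _ _ => hnn _ _

theorem prop (hkr : S_killRho) (ha1 : S_A1) : S_prop := by
  intro V _ P H S X Y u w f h hY hYn hne
  obtain ⟨h1, h2, h3, h4, h5, h6⟩ := tf h
  obtain ⟨k1, k2, k3, -⟩ := hkr V P H X f h.mc.ok
  have hd : Disjoint Y X := sdiff_disjoint.mono_left hY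
  rw [k2 Y hd]
  have e1 := union_ge ha1 h hY hne
  have e2 : 0 ≤ ∑ v ∈ Y, sav P H X f v := sum_nonneg fun v _ => (k3 v).2.2.2.2.2
  have e3 := h.le_a
  have e4 := P.hab
  linarith

theorem tt (hkr : S_killRho) (hkf : S_KF) (ha1 : S_A1) : S_T := by
  intro V _ P H S X u w f p h hcol
  obtain ⟨h1, h2, h3, h4, h5, h6⟩ := tf h
  obtain ⟨k1, k2, k3, -⟩ := hkr V P H X f h.mc.ok
  obtain ⟨Y, hY, hYn, hle⟩ := hkf V P H S X f p h.mc h.sub h1 hcol
  by_cases hne : Y = S \ X
  · subst hne
    have : S \ X ∪ X = S := sdiff_union_of_subset h.sub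
    rw [this] at hle
    linarith
  · exfalso
    have e1 := union_ge ha1 h hY hne
    have e2 : 0 ≤ ∑ v ∈ Y, sav P H X f v := sum_nonneg fun v _ => (k3 v).2.2.2.2.2
    have e3 := h.le_a
    have e4 := P.hab
    linarith

theorem sat (hk1f : S_K1F) (ha1 : S_A1) : S_sat := by
  intro V _ P H S X u w f p x v h hcol hx hv hadj
  obtain ⟨h1, h2, h3, h4, h5, h6⟩ := tf h
  by_contra hlt
  push Not at hlt
  obtain ⟨Y, hY, hYn, hle⟩ := hk1f V P H S X f p x v h.mc h.sub hcol hx hv hadj (by omega)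
  by_cases hne : Y = S \ X
  · subst hne
    have : S \ X ∪ X = S := sdiff_union_of_subset h.sub
    rw [this, if_pos hv] at hle
    have e3 := h.le_a
    linarith
  · have e1 := union_ge ha1 h hY hne
    have e2 : (0 : ℤ) ≤ (if v ∈ Y then 2 * P.a else 0) := by
      have := P.hab
      have := P.hb
      have := P.hd
      split_ifs <;> linarith
    have e3 := h.le_a
    have e4 := P.hab
    linarith

theorem force1 (hlow : S_low) (ha1 : S_A1) (hsat : S_sat) : S_force1 := by
  intro V _ P H S X u w x v i h hx hv hadj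
  obtain ⟨h1, h2, h3, h4, h5, h6⟩ := tf h
  obtain ⟨l1, l2, l3, l4, l5⟩ := hlow V P H (!i) x h.mc.ok
  have hcard : X.card < S.card := card_lt_card (h.sub.ssubset_of_ne h2)
  have hp1 := P.hab
  have hp2 := P.hb
  have hp3 := P.hd
  have hkap : kap P (!i) ≤ P.a ∧ 0 ≤ kap P (!i) := by
    unfold kap
    split_ifs <;> constructor <;> linarith
  have hyp : Hyp P (low H (!i) x) X := by
    intro Y hYX hYn
    have hYS : Y ≠ S := by
      rintro rfl
      exact h2 (Subset.antisymm h.sub hYX)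
    have e1 := ha1 V P H S Y h.mc (hYX.trans h.sub) hYn hYS
    have e2 := l2 Y
    have e3 : (if x ∈ Y then 2 * kap P (!i) else 0) ≤ 2 * P.a := by
      split_ifs <;> linarith [hkap.1, hkap.2]
    linarith
  obtain ⟨f, p, hc⟩ := h.mc.ih2 (low H (!i) x) X l1 hyp (eE_mono h.mc.ok h.sub) hcard
  obtain ⟨c1, c2⟩ := l4 X f p hc
  refine ⟨f, p, c1, ?_⟩
  by_contra hfi
  have hfi' : f x = !i := by
    cases i <;> cases hh : f x <;> simp_all
  have c3 := (c2 hx hfi').1
  have c4 := hsat V P H S X u w f p x v h c1 hx hv hadj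
  rw [hfi'] at c4
  linarith

theorem force2 (hlow : S_low) (ha1 : S_A1) (hsat : S_sat) : S_force2 := by
  intro V _ P H S X u w x v h hX hx hv hadj
  obtain ⟨h1, h2, h3, h4, h5, h6⟩ := tf h
  obtain ⟨l1, l2, l3, l4, l5⟩ := hlow V P H false u h.mc.ok
  obtain ⟨m1, m2, m3, m4, m5⟩ := hlow V P (low H false u) false x l1
  have hcard : X.card < S.card := card_lt_card (h.sub.ssubset_of_ne h2)
  have hp1 := P.hab
  have hp2 := P.hb
  have hp3 := P.hd
  have hkap : kap P false = P.b := by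
    unfold kap
    simp
  have hyp : Hyp P (low (low H false u) false x) X := by
    intro Y hYX hYn
    have e2 := l2 Y
    have e3 := m2 Y
    rw [hkap] at e2 e3
    have e4 : (if x ∈ Y then 2 * P.b else 0) ≤ 2 * P.b := by
      split_ifs <;> linarith
    by_cases hu : u ∈ Y
    · rw [if_pos hu] at e2
      have e5 := h.min Y (hYX.trans h.sub) ⟨u, hu, w, mem_sdiff.2 ⟨h4, fun hw => h5 (hYX hw)⟩, h.huw⟩
      linarith
    · rw [if_neg hu] at e2
      have hYS : Y ≠ S := by
        rintro rfl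
        exact h2 (Subset.antisymm h.sub hYX)
      have e1 := ha1 V P H S Y h.mc (hYX.trans h.sub) hYn hYS
      linarith
  obtain ⟨f, p, hc⟩ := h.mc.ih2 (low (low H false u) false x) X m1 hyp (eE_mono h.mc.ok h.sub) hcard
  obtain ⟨c1, c2⟩ := m4 X f p hc
  obtain ⟨d1, d2⟩ := l4 X f p c1
  have hu : f u = true := by
    by_contra hfu
    have hfu' : f u = false := by simpa using hfu
    have c3 := (d2 h.hu hfu').1
    have c4 := hsat V P H S X u w f p u w h d1 h.hu h.hw (Or.inl h.huw)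
    rw [hfu'] at c4
    linarith
  refine ⟨f, p, d1, hu, ?_⟩
  by_contra hfx
  have hfx' : f x = false := by simpa using hfx
  have c3 := (c2 hx hfx').1
  have hxu : x ≠ u := by
    rintro rfl
    exact hfx hu
  have c5 : (low H false u).c false x = H.c false x := by
    unfold low
    simp [hxu]
  have c6 : load (low H false u) X f p x = load H X f p x := rfl
  have c4 := hsat V P H S X u w f p x v h d1 hx hv hadj
  rw [hfx'] at c4
  rw [c5, c6] at c3
  linarith

end Pool.Agent.N547.DF.TopSet
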